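import Pool.Agent.N65.GP.Defs

/-!
# Functions on a dense subset which are locally constant are constant
-/

set_option autoImplicit false

namespace Pool.Agent.N42.GP

open Filter Topology

lemma preconn {R : ℝ} (hR : 0 < R) : IsPreconnected {c : ℂ | R < ‖c‖} := by
  have h1 : {c : ℂ | R < ‖c‖} = Complex.exp '' {z : ℂ | Real.log R < z.re} := by
    ext c
    constructor
    · intro hc
      have hc' : R < ‖c‖ := hc
      have h0 : c ≠ 0 := norm_pos_iff.1 (hR.trans hc')
      refine ⟨Complex.log c, ?_, Complex.exp_log h0⟩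
      have h2 : Real.log R < (Complex.log c).re := by
        rw [Complex.log_re]
        exact Real.log_lt_log hR hc'
      exact h2
    · rintro ⟨z, hz, rfl⟩
      have hz' : Real.log R < z.re := hz
      have h2 : R < ‖Complex.exp z‖ := by
        rw [Complex.norm_exp]
        exact (Real.log_lt_iff_lt_exp hR).1 hz'
      exact h2
  rw [h1]
  exact ((convex_halfSpace_re_gt (Real.log R)).isPreconnected).image _
    Complex.continuous_exp.continuousOn

/-- **Locally constant functions on a dense subset.** -/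
theorem t_CC : Pool.Agent.N65.GP.S_CC := by
  intro E R D lam hD hR hloc
  choose! ε hε hε1 using hloc
  have hd : ∀ c₀ : ℂ, ∃ d : ℂ, R < ‖c₀‖ → d ∈ D ∧ d ∈ Metric.ball c₀ (ε c₀) := by
    intro c₀
    by_cases h : R < ‖c₀‖
    · obtain ⟨d, hd1, hd2⟩ := hD.exists_mem_open Metric.isOpen_ball
        ⟨c₀, Metric.mem_ball_self (hε c₀ h)⟩
      exact ⟨d, fun _ => ⟨hd1, hd2⟩⟩
    · exact ⟨0, fun h' => absurd h' h⟩
  choose d hd using hd
  let f : ℂ → E := fun c => lam (d c)
  let tE : TopologicalSpace E := ⊥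
  have dE : DiscreteTopology E := ⟨rfl⟩
  have hcont : ContinuousOn f {c : ℂ | R < ‖c‖} := by
    intro c₀ hc₀
    have h0 : R < ‖c₀‖ := hc₀
    refine (continuousWithinAt_const (b := f c₀)).congr_of_eventuallyEq ?_ rfl
    have h1 : ∀ᶠ c in 𝓝[{c : ℂ | R < ‖c‖}] c₀, c ∈ Metric.ball c₀ (ε c₀) :=
      nhdsWithin_le_nhds (Metric.ball_mem_nhds _ (hε c₀ h0))
    have h2 : ∀ᶠ c in 𝓝[{c : ℂ | R < ‖c‖}] c₀, R < ‖c‖ := self_mem_nhdsWithin
    filter_upwards [h1, h2] with c h3 h4
    obtain ⟨e, he1, he2⟩ := hD.exists_mem_open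
      (Metric.isOpen_ball.inter Metric.isOpen_ball :
        IsOpen (Metric.ball c₀ (ε c₀) ∩ Metric.ball c (ε c)))
      ⟨c, h3, Metric.mem_ball_self (hε c h4)⟩
    have h5 : lam e = lam (d c₀) := hε1 c₀ h0 e he1 (d c₀) (hd c₀ h0).1 he2.1 (hd c₀ h0).2
    have h6 : lam e = lam (d c) := hε1 c h4 e he1 (d c) (hd c h4).1 he2.2 (hd c h4).2
    exact h6.symm.trans h5
  have hp : R < ‖((R + 1 : ℝ) : ℂ)‖ := by
    rw [Complex.norm_real, Real.norm_eq_abs, abs_of_pos (by linarith)]
    linarith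
  refine ⟨f ((R + 1 : ℝ) : ℂ), fun c hc hcR => ?_⟩
  have h1 : f c = f ((R + 1 : ℝ) : ℂ) := (preconn hR).constant hcont hcR hp
  rw [← h1]
  exact hε1 c hcR c hc (d c) (hd c hcR).1 (Metric.mem_ball_self (hε c hcR)) (hd c hcR).2

end Pool.Agent.N42.GP
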